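import Pool.Agent.Helper52.KP.StG

/-! Project KP, module RS1: removable singularities of square integrable functions. -/

set_option autoImplicit false

namespace Pool.Agent.Helper34.KP

open MeasureTheory Metric Filter Asymptotics Pool.Agent.Helper52.KP Real
open scoped Topology ENNReal

private theorem rs1_circ (g : ℂ → ℂ) (z : ℂ) (R : ℝ) (hg : DifferentiableOn ℂ g (ball z R))
    (w : ℂ) (hw : w ∈ ball (0:ℂ) R) : ENNReal.ofReal (2 * π) * ‖g z‖ₑ ≤
      ∫⁻ θ in Set.Ioc 0 (2 * π), ‖g (z + (Circle.exp θ : ℂ) * w)‖ₑ := by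
  have hw' : ‖w‖ < R := by simpa using hw
  have hd : DiffContOnCl ℂ (fun ζ => g (z + ζ * w)) (ball 0 |(1:ℝ)|) := by
    apply DifferentiableOn.diffContOnCl
    have hA : Differentiable ℂ (fun ζ : ℂ => z + ζ * w) := by fun_prop
    refine hg.comp hA.differentiableOn ?_
    intro ζ hζ
    rw [abs_one, closure_ball _ one_ne_zero] at hζ
    have h1 : ‖ζ‖ ≤ 1 := by simpa using hζ
    rw [mem_ball, dist_eq_norm]
    have e : z + ζ * w - z = ζ * w := by ring
    rw [e, norm_mul]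
    have : ‖ζ‖ * ‖w‖ ≤ 1 * ‖w‖ := mul_le_mul_of_nonneg_right h1 (norm_nonneg _)
    linarith
  have h1 := hd.circleAverage
  rw [Real.circleAverage_def] at h1
  have h2 : (2 * π) • g z = ∫ θ in (0:ℝ)..2 * π, g (z + (Circle.exp θ : ℂ) * w) := by
    have e0 : g (z + 0 * w) = g z := by simp
    rw [e0] at h1
    rw [← h1, smul_smul, mul_inv_cancel₀ (by positivity), one_smul]
    congr 1
    funext θ
    rw [circleMap_zero, Circle.coe_exp]
    simp
  have h3 : ‖(2 * π) • g z‖ₑ = ENNReal.ofReal (2 * π) * ‖g z‖ₑ := by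
    rw [enorm_smul, Real.enorm_eq_ofReal (by positivity)]
  rw [← h3, h2, intervalIntegral.integral_of_le (by positivity)]
  exact enorm_integral_le_lintegral_enorm _

private theorem rs1_mv (g : ℂ → ℂ) (z : ℂ) (R : ℝ) (hg : DifferentiableOn ℂ g (ball z R)) :
    volume (ball (0:ℂ) R) * ‖g z‖ₑ ≤ ∫⁻ w in ball z R, ‖g w‖ₑ := by
  classical
  have hm : Measurable ((ball z R).indicator g) := by
    rw [← Set.piecewise_eq_indicator]
    exact hg.continuousOn.measurable_piecewise continuousOn_const measurableSet_ball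
  have e1 : ∫⁻ w in ball z R, ‖g w‖ₑ = ∫⁻ w, ‖(ball z R).indicator g (z + w)‖ₑ := by
    rw [lintegral_add_left_eq_self (fun w => ‖(ball z R).indicator g w‖ₑ) z,
      ← lintegral_indicator measurableSet_ball]
    congr 1
    funext w
    by_cases hw : w ∈ ball z R
    · simp [hw]
    · simp [hw]
  have hmm : Measurable fun w => ‖(ball z R).indicator g (z + w)‖ₑ :=
    (hm.comp (measurable_const_add z)).enorm
  have e2 : ∀ θ : ℝ, ∫⁻ w, ‖(ball z R).indicator g (z + (Circle.exp θ : ℂ) * w)‖ₑ =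
      ∫⁻ w, ‖(ball z R).indicator g (z + w)‖ₑ := by
    intro θ
    have h := (rotation (Circle.exp θ)).measurePreserving.lintegral_comp hmm
    simpa only [rotation_apply] using h
  have h2 : ∀ w ∈ ball (0:ℂ) R, ENNReal.ofReal (2 * π) * ‖g z‖ₑ ≤
      ∫⁻ θ in Set.Ioc 0 (2 * π), ‖(ball z R).indicator g (z + (Circle.exp θ : ℂ) * w)‖ₑ := by
    intro w hw
    refine (rs1_circ g z R hg w hw).trans (le_of_eq ?_)
    congr 1
    funext θ
    have : z + (Circle.exp θ : ℂ) * w ∈ ball z R := by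
      rw [mem_ball, dist_eq_norm]
      have e : z + (Circle.exp θ : ℂ) * w - z = (Circle.exp θ : ℂ) * w := by ring
      rw [e, norm_mul, Circle.norm_coe, one_mul]
      simpa using hw
    rw [Set.indicator_of_mem this]
  have hme : Measurable (Function.uncurry fun (w : ℂ) (θ : ℝ) =>
      ‖(ball z R).indicator g (z + (Circle.exp θ : ℂ) * w)‖ₑ) := by
    have hc : Continuous fun p : ℂ × ℝ => z + (Circle.exp p.2 : ℂ) * p.1 := by
      have : Continuous fun p : ℂ × ℝ => (Circle.exp p.2 : ℂ) :=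
        continuous_subtype_val.comp (Circle.exp.continuous.comp continuous_snd)
      fun_prop
    exact (hm.comp hc.measurable).enorm
  have h3 : volume (ball (0:ℂ) R) * (ENNReal.ofReal (2 * π) * ‖g z‖ₑ) ≤
      ENNReal.ofReal (2 * π) * ∫⁻ w, ‖(ball z R).indicator g (z + w)‖ₑ := by
    calc volume (ball (0:ℂ) R) * (ENNReal.ofReal (2 * π) * ‖g z‖ₑ)
        = ∫⁻ _w in ball (0:ℂ) R, (ENNReal.ofReal (2 * π) * ‖g z‖ₑ) := by
          rw [setLIntegral_const, mul_comm]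
      _ ≤ ∫⁻ w in ball (0:ℂ) R, ∫⁻ θ in Set.Ioc 0 (2 * π),
            ‖(ball z R).indicator g (z + (Circle.exp θ : ℂ) * w)‖ₑ :=
          setLIntegral_mono' measurableSet_ball h2
      _ ≤ ∫⁻ w, ∫⁻ θ in Set.Ioc 0 (2 * π),
            ‖(ball z R).indicator g (z + (Circle.exp θ : ℂ) * w)‖ₑ := setLIntegral_le_lintegral _ _
      _ = ∫⁻ θ in Set.Ioc 0 (2 * π), ∫⁻ w,
            ‖(ball z R).indicator g (z + (Circle.exp θ : ℂ) * w)‖ₑ :=
          lintegral_lintegral_swap hme.aemeasurable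
      _ = ∫⁻ _θ in Set.Ioc 0 (2 * π), ∫⁻ w, ‖(ball z R).indicator g (z + w)‖ₑ := by
          simp_rw [e2]
      _ = ENNReal.ofReal (2 * π) * ∫⁻ w, ‖(ball z R).indicator g (z + w)‖ₑ := by
          rw [setLIntegral_const, Real.volume_Ioc, sub_zero, mul_comm]
  rw [e1]
  have hc0 : ENNReal.ofReal (2 * π) ≠ 0 := by
    rw [Ne, ENNReal.ofReal_eq_zero, not_le]
    positivity
  have e4 : volume (ball (0:ℂ) R) * (ENNReal.ofReal (2 * π) * ‖g z‖ₑ) =
      ENNReal.ofReal (2 * π) * (volume (ball (0:ℂ) R) * ‖g z‖ₑ) := by ring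
  rw [e4] at h3
  exact (ENNReal.mul_le_mul_iff_right hc0 ENNReal.ofReal_ne_top).1 h3

private theorem rs1_vol (s : ℝ) (hs : 0 ≤ s) :
    volume (ball (0:ℂ) s) = ENNReal.ofReal (s ^ 2 * π) := by
  have hp : ENNReal.ofReal π = (NNReal.pi : ℝ≥0∞) := by
    rw [ENNReal.ofReal_eq_coe_nnreal Real.pi_pos.le]
    rfl
  rw [Complex.volume_ball, ENNReal.ofReal_mul (sq_nonneg s), ENNReal.ofReal_pow hs, hp]

/-- **RS1.** -/
theorem hRS1 : StRS1 := by
  intro r f hr hf hi
  set f0 : ℂ → ℂ := Function.update f 0 0 with hf0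
  have h00 : f0 0 = 0 := by simp [hf0]
  have hne : ∀ z, z ≠ 0 → f0 z = f z := fun z hz => Function.update_of_ne hz _ _
  have hd0 : DifferentiableOn ℂ f0 (ball 0 r \ {0}) :=
    hf.congr fun z hz => hne z hz.2
  have hfin : ∫⁻ w in ball (0:ℂ) r, ‖f w‖ₑ ^ 2 ≠ ∞ := by
    have h := hi.2
    unfold HasFiniteIntegral at h
    have e : ∀ w : ℂ, ‖‖f w‖ ^ 2‖ₑ = ‖f w‖ₑ ^ 2 := by
      intro w
      rw [enorm_pow, enorm_norm]
    simp_rw [e] at h
    exact h.ne
  have hlo : (fun z => f0 z - f0 0) =o[𝓝[≠] 0] fun z => (z - 0)⁻¹ := by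
    rw [isLittleO_iff]
    intro c hc
    obtain ⟨δ, hδ, hδ'⟩ := exists_pos_setLIntegral_lt_of_measure_lt hfin
      (ε := ENNReal.ofReal (c ^ 2 * π)) (by
        rw [Ne, ENNReal.ofReal_eq_zero, not_le]
        positivity)
    have hev : ∀ᶠ z in 𝓝[≠] (0:ℂ), volume (ball (0:ℂ) (2 * ‖z‖)) < δ := by
      have ht : Tendsto (fun z : ℂ => volume (ball (0:ℂ) (2 * ‖z‖))) (𝓝 0) (𝓝 0) := by
        have e : (fun z : ℂ => volume (ball (0:ℂ) (2 * ‖z‖))) =
            fun z : ℂ => ENNReal.ofReal ((2 * ‖z‖) ^ 2 * π) := by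
          funext z
          exact rs1_vol _ (by positivity)
        rw [e]
        have hc1 : Continuous fun z : ℂ => ENNReal.ofReal ((2 * ‖z‖) ^ 2 * π) :=
          ENNReal.continuous_ofReal.comp (by fun_prop)
        have := hc1.tendsto 0
        simpa using this
      exact (ht.eventually (gt_mem_nhds hδ)).filter_mono nhdsWithin_le_nhds
    have hev2 : ∀ᶠ z in 𝓝[≠] (0:ℂ), z ∈ ball (0:ℂ) (r / 2) :=
      nhdsWithin_le_nhds (ball_mem_nhds (0:ℂ) (by positivity))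
    filter_upwards [hev, hev2, self_mem_nhdsWithin] with z h1 h2 h3
    have hz : z ≠ 0 := h3
    have hzp : 0 < ‖z‖ := norm_pos_iff.2 hz
    have hz2 : ‖z‖ < r / 2 := by simpa using h2
    have hsub : ball z ‖z‖ ⊆ ball (0:ℂ) r \ {0} := by
      intro w hw
      rw [mem_ball, dist_eq_norm] at hw
      refine ⟨?_, ?_⟩
      · rw [mem_ball, dist_zero_right]
        have := norm_le_norm_add_norm_sub' w z
        linarith
      · rintro rfl
        simp at hw
    have hsub2 : ball z ‖z‖ ⊆ ball (0:ℂ) (2 * ‖z‖) := by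
      intro w hw
      rw [mem_ball, dist_eq_norm] at hw
      rw [mem_ball, dist_zero_right]
      have := norm_le_norm_add_norm_sub' w z
      linarith
    have hmv := rs1_mv (fun w => f w ^ 2) z ‖z‖ ((hf.mono hsub).pow 2)
    have h5 : ∫⁻ w in ball z ‖z‖, ‖f w ^ 2‖ₑ ≤ ENNReal.ofReal (c ^ 2 * π) := by
      have h6 := hδ' (ball (0:ℂ) (2 * ‖z‖)) ((Measure.restrict_apply_le _ _).trans_lt h1)
      have h7 : ∫⁻ w in ball z ‖z‖, ‖f w ^ 2‖ₑ ≤
          ∫⁻ w in ball (0:ℂ) (2 * ‖z‖), ‖f w‖ₑ ^ 2 ∂(volume.restrict (ball (0:ℂ) r)) := by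
        rw [Measure.restrict_restrict measurableSet_ball]
        simp_rw [enorm_pow]
        exact lintegral_mono_set (fun w hw => ⟨hsub2 hw, (hsub hw).1⟩)
      exact h7.trans h6.le
    have h8 : ENNReal.ofReal (‖z‖ ^ 2 * π * ‖f z‖ ^ 2) ≤ ENNReal.ofReal (c ^ 2 * π) := by
      refine le_trans (le_of_eq ?_) (hmv.trans h5)
      rw [rs1_vol _ (norm_nonneg z), ENNReal.ofReal_mul (by positivity), ← norm_pow (f z),
        ofReal_norm]
    have h9 : ‖z‖ ^ 2 * π * ‖f z‖ ^ 2 ≤ c ^ 2 * π :=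
      (ENNReal.ofReal_le_ofReal_iff (by positivity)).1 h8
    have h10 : (‖z‖ * ‖f z‖) ^ 2 ≤ c ^ 2 := by
      have : (‖z‖ * ‖f z‖) ^ 2 * π ≤ c ^ 2 * π := by
        calc (‖z‖ * ‖f z‖) ^ 2 * π = ‖z‖ ^ 2 * π * ‖f z‖ ^ 2 := by ring
          _ ≤ _ := h9
      exact le_of_mul_le_mul_right this Real.pi_pos
    have h11 : ‖z‖ * ‖f z‖ ≤ c := abs_le_of_sq_le_sq' h10 hc.le |>.2
    rw [h00, sub_zero, sub_zero, hne z hz, norm_inv]
    rw [← div_eq_mul_inv, le_div_iff₀ hzp]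
    linarith [mul_comm ‖z‖ ‖f z‖]
  have hres := Complex.differentiableOn_update_limUnder_of_isLittleO (ball_mem_nhds (0:ℂ) hr)
    hd0 hlo
  refine ⟨_, hres, ?_⟩
  intro z _ hz
  rw [Function.update_of_ne hz, hne z hz]

end Pool.Agent.Helper34.KP
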