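import Pool.Agent.Helper68.KP.StS

/-! Project KP, module CAB: a basis adapted to two filtrations. -/

set_option autoImplicit false

namespace Pool.Agent.Helper34.KP

open Pool.Agent.Helper52.KP Pool.Agent.Helper68.KP Matrix Submodule

section

variable {V : Type} [AddCommGroup V] [Module ℂ V]

private theorem cab_one (G : ℝ → Submodule ℂ V) (hG : Antitone G) (B0 : Set V)
    (hB0 : LinearIndepOn ℂ id B0) (Fl : Submodule ℂ V) (S : Finset ℝ) :
    ∃ C : Set V, C ⊆ (Fl : Set V) ∧ LinearIndepOn ℂ id (B0 ∪ C) ∧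
      (∀ y ∈ S, ∀ x ∈ Fl, x ∈ G y → x ∈ span ℂ (B0 ∪ (C ∩ (G y : Set V)))) ∧
      ∀ c ∈ C, ∃ y ∈ S, c ∈ G y := by
  classical
  induction S using Finset.induction_on_min with
  | empty => exact ⟨∅, by simp, by simpa using hB0, by simp, by simp⟩
  | insert a S ha ih =>
    obtain ⟨C, h1, h2, h3, h4⟩ := ih
    obtain ⟨b, hb1, hb2, hb3, hb4⟩ := exists_linearIndepOn_id_extension h2
      (t := (B0 ∪ C) ∪ ((Fl : Set V) ∩ (G a : Set V))) Set.subset_union_left
    refine ⟨C ∪ (b ∩ ((Fl : Set V) ∩ (G a : Set V))), ?_, ?_, ?_, ?_⟩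
    · rintro x (hx | hx)
      · exact h1 hx
      · exact hx.2.1
    · refine hb4.mono ?_
      rintro x (hx | hx | hx)
      · exact hb2 (Or.inl hx)
      · exact hb2 (Or.inr hx)
      · exact hx.1
    · intro y hy x hx hxy
      rcases Finset.mem_insert.1 hy with rfl | hy
      · have hxb : x ∈ span ℂ b := hb3 (Or.inr ⟨hx, hxy⟩)
        refine span_mono ?_ hxb
        intro v hv
        rcases hb1 hv with (hv' | hv') | hv'
        · exact Or.inl hv'
        · obtain ⟨y', hy', hv''⟩ := h4 v hv'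
          exact Or.inr ⟨Or.inl hv', hG (ha y' hy').le hv''⟩
        · exact Or.inr ⟨Or.inr ⟨hv, hv'⟩, hv'.2⟩
      · refine span_mono ?_ (h3 y hy x hx hxy)
        rintro v (hv | hv)
        · exact Or.inl hv
        · exact Or.inr ⟨Or.inl hv.1, hv.2⟩
    · rintro c (hc | hc)
      · obtain ⟨y, hy, hcy⟩ := h4 c hc
        exact ⟨y, Finset.mem_insert_of_mem hy, hcy⟩
      · exact ⟨a, Finset.mem_insert_self _ _, hc.2.2⟩

private theorem cab_two (G : ℝ → Submodule ℂ V) (hG : Antitone G) (F : ℕ → Submodule ℂ V)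
    (hF : Antitone F) (M : ℕ) (hM : F M = ⊥) (S : Finset ℝ) (k : ℕ) (hk : k ≤ M) :
    ∃ B : Set V, B ⊆ (F (M - k) : Set V) ∧ LinearIndepOn ℂ id B ∧
      ∀ l, M - k ≤ l → ∀ y ∈ S, ∀ x ∈ F l, x ∈ G y →
        x ∈ span ℂ (B ∩ ((F l : Set V) ∩ (G y : Set V))) := by
  induction k with
  | zero =>
    refine ⟨∅, by simp, by simp, ?_⟩
    intro l hl y _ x hx _
    have h1 : F l ≤ ⊥ := hM ▸ hF (by omega)
    have h2 : x = 0 := by simpa using h1 hx
    rw [h2]
    exact zero_mem _
  | succ k ih =>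
    obtain ⟨B, hB1, hB2, hB3⟩ := ih (by omega)
    have hk1 : M - k = (M - (k + 1)) + 1 := by omega
    set l0 := M - (k + 1) with hl0
    rw [hk1] at hB1 hB3
    obtain ⟨C, hC1, hC2, hC3, hC4⟩ := cab_one G hG B hB2 (F l0) S
    refine ⟨B ∪ C, ?_, hC2, ?_⟩
    · rintro x (hx | hx)
      · exact hF (Nat.le_succ l0) (hB1 hx)
      · exact hC1 hx
    · intro l hl y hy x hx hxy
      rcases Nat.lt_or_ge l0 l with h | h
      · refine span_mono ?_ (hB3 l h y hy x hx hxy)
        rintro v ⟨hv, hv'⟩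
        exact ⟨Or.inl hv, hv'⟩
      · have hl' : l = l0 := le_antisymm h hl
        subst hl'
        have h1 := hC3 y hy x hx hxy
        rw [span_union, mem_sup] at h1
        obtain ⟨u, hu, v, hv, huv⟩ := h1
        have hu1 : u ∈ F (l0 + 1) := (span_le.2 hB1) hu
        have hvG : v ∈ G y := (span_le.2 (fun w hw => hw.2)) hv
        have huG : u ∈ G y := by
          have : u = x - v := by rw [← huv]; abel
          rw [this]
          exact sub_mem hxy hvG
        have hu2 := hB3 (l0 + 1) le_rfl y hy u hu1 huG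
        rw [← huv]
        refine add_mem ?_ ?_
        · refine span_mono ?_ hu2
          rintro w ⟨hw, hw1, hw2⟩
          exact ⟨Or.inl hw, hF (Nat.le_succ l0) hw1, hw2⟩
        · refine span_mono ?_ hv
          rintro w ⟨hw, hw'⟩
          exact ⟨Or.inr hw, hC1 hw, hw'⟩

end

private theorem cab_fin (N : ℕ) (G : ℝ → Submodule ℂ (Fin N → ℂ)) (hG : Antitone G)
    (F : ℕ → Submodule ℂ (Fin N → ℂ)) (hF : Antitone F) (h0 : F 0 = ⊤) (M : ℕ) (hM : F M = ⊥)
    (S : Finset ℝ) (y0 : ℝ) (hy0 : y0 ∈ S) (hy0' : G y0 = ⊤)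
    (hS : ∀ y, G y = ⊥ ∨ ∃ y' ∈ S, y ≤ y' ∧ G y = G y') :
    ∃ (b : Fin N → Fin N → ℂ) (lam : Fin N → ℕ) (mu : Fin N → ℝ), LinearIndependent ℂ b ∧
      (∀ l, F l = span ℂ (b '' {j | l ≤ lam j})) ∧
      ∀ y, G y = span ℂ (b '' {j | y ≤ mu j}) := by
  classical
  obtain ⟨B, _, hB2, hB3⟩ := cab_two G hG F hF M hM S M le_rfl
  rw [Nat.sub_self] at hB3
  have hBs : ⊤ ≤ span ℂ (Set.range (fun x : B => (x : Fin N → ℂ))) := by
    intro x _
    have h := hB3 0 le_rfl y0 hy0 x (by rw [h0]; trivial) (by rw [hy0']; trivial)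
    refine span_mono ?_ h
    rintro v ⟨hv, _⟩
    exact ⟨⟨v, hv⟩, rfl⟩
  have hli : LinearIndependent ℂ (fun x : B => (x : Fin N → ℂ)) := hB2
  let e : B ≃ Fin N := (Module.Basis.mk hli hBs).indexEquiv (Pi.basisFun ℂ (Fin N))
  let b : Fin N → Fin N → ℂ := fun j => (e.symm j : Fin N → ℂ)
  have hbli : LinearIndependent ℂ b := hli.comp _ e.symm.injective
  have hbne : ∀ j, b j ≠ 0 := hbli.ne_zero
  have hbB : ∀ v ∈ B, ∃ j, b j = v := fun v hv => ⟨e ⟨v, hv⟩, by simp [b]⟩
  have hbB' : ∀ j, b j ∈ B := fun j => (e.symm j).2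
  -- labels
  let lam : Fin N → ℕ := fun j => Nat.findGreatest (fun l => b j ∈ F l) M
  have hlam : ∀ j l, l ≤ lam j ↔ b j ∈ F l := by
    intro j l
    constructor
    · intro h
      have h1 : b j ∈ F (lam j) := by
        have : b j ∈ F 0 := by rw [h0]; trivial
        exact Nat.findGreatest_spec (P := fun l => b j ∈ F l) (Nat.zero_le M) this
      exact hF h h1
    · intro h
      have hl : l ≤ M := by
        by_contra hc
        have h1 : F l ≤ ⊥ := hM ▸ hF (by omega)
        exact hbne j (by simpa using h1 h)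
      exact Nat.le_findGreatest hl h
  have hne : ∀ j, (S.filter fun y => b j ∈ G y).Nonempty := fun j =>
    ⟨y0, by simp [hy0, hy0']⟩
  let mu : Fin N → ℝ := fun j => (S.filter fun y => b j ∈ G y).max' (hne j)
  have hmu : ∀ j y, y ≤ mu j ↔ b j ∈ G y := by
    intro j y
    constructor
    · intro h
      have h1 := Finset.max'_mem _ (hne j)
      rw [Finset.mem_filter] at h1
      exact hG h h1.2
    · intro h
      rcases hS y with h1 | ⟨y', hy', hyy, hGG⟩
      · rw [h1] at h
        exact absurd (by simpa using h) (hbne j)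
      · refine hyy.trans (Finset.le_max' _ _ ?_)
        rw [Finset.mem_filter]
        exact ⟨hy', hGG ▸ h⟩
  refine ⟨b, lam, mu, hbli, ?_, ?_⟩
  · intro l
    apply le_antisymm
    · intro x hx
      have h := hB3 l (Nat.zero_le l) y0 hy0 x hx (by rw [hy0']; trivial)
      refine span_mono ?_ h
      rintro v ⟨hv, hv1, _⟩
      obtain ⟨j, rfl⟩ := hbB v hv
      exact ⟨j, (hlam j l).2 hv1, rfl⟩
    · rw [span_le]
      rintro _ ⟨j, hj, rfl⟩
      exact (hlam j l).1 hj
  · intro y
    apply le_antisymm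
    · intro x hx
      rcases hS y with h1 | ⟨y', hy', hyy, hGG⟩
      · rw [h1] at hx
        have : x = 0 := by simpa using hx
        rw [this]
        exact zero_mem _
      · have h := hB3 0 le_rfl y' hy' x (by rw [h0]; trivial) (hGG ▸ hx)
        refine span_mono ?_ h
        rintro v ⟨hv, _, hv1⟩
        obtain ⟨j, rfl⟩ := hbB v hv
        exact ⟨j, (hmu j y).2 (by rw [hGG]; exact hv1), rfl⟩
    · rw [span_le]
      rintro _ ⟨j, hj, rfl⟩
      exact (hmu j y).1 hj

/-- **CAB.** -/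
theorem hCAB : StCAB := by
  classical
  intro N M F ξ hF h0 hM hξ
  let e : Module.Basis (Fin N) ℂ (Fin N → ℂ) :=
    (hξ.eigenvectorBasis.toBasis).map (WithLp.linearEquiv 2 ℂ (Fin N → ℂ))
  have he : ∀ i, ξ *ᵥ e i = ((hξ.eigenvalues i : ℝ) : ℂ) • e i := by
    intro i
    have h := hξ.mulVec_eigenvectorBasis i
    have h2 : e i = ⇑(hξ.eigenvectorBasis i) := by
      simp [e]
    rw [h2, h]
    ext k
    simp
  have hGm : ∀ y, Gm ξ y = span ℂ (e '' {i | y ≤ hξ.eigenvalues i}) := by
    intro y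
    apply le_antisymm
    · unfold Gm
      rw [span_le]
      rintro v ⟨x, hx, hv⟩
      rw [SetLike.mem_coe, e.mem_span_image]
      intro i hi
      have h1 : e.repr (ξ *ᵥ v) i = (hξ.eigenvalues i : ℂ) * e.repr v i := by
        have h2 : ξ *ᵥ v = ∑ j, (e.repr v j * (hξ.eigenvalues j : ℂ)) • e j := by
          conv_lhs => rw [← e.sum_repr v]
          rw [Matrix.mulVec_sum]
          refine Finset.sum_congr rfl fun j _ => ?_
          rw [Matrix.mulVec_smul, he, smul_smul]
        rw [h2]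
        simp [Finsupp.single_apply, mul_comm]
      rw [hv] at h1
      have h3 : (x : ℂ) * e.repr v i = (hξ.eigenvalues i : ℂ) * e.repr v i := by
        rw [← h1, map_smul, Finsupp.smul_apply, smul_eq_mul]
      have h4 : e.repr v i ≠ 0 := by simpa using hi
      have h5 : (x : ℂ) = (hξ.eigenvalues i : ℂ) := mul_right_cancel₀ h4 h3
      have h6 : x = hξ.eigenvalues i := by exact_mod_cast h5
      rw [Set.mem_ofPred_eq, ← h6]
      exact hx
    · rw [span_le]
      rintro _ ⟨i, hi, rfl⟩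
      exact subset_span ⟨hξ.eigenvalues i, hi, he i⟩
  have hG : Antitone (Gm ξ) := by
    intro y y' hyy
    unfold Gm
    apply span_mono
    rintro v ⟨x, hx, hv⟩
    exact ⟨x, hyy.trans hx, hv⟩
  obtain ⟨y0, hy0⟩ : ∃ y0 : ℝ, ∀ i, y0 ≤ hξ.eigenvalues i := by
    obtain ⟨y0, h⟩ := (Set.finite_range hξ.eigenvalues).bddBelow
    exact ⟨y0, fun i => h ⟨i, rfl⟩⟩
  refine cab_fin N (Gm ξ) hG F hF h0 M hM (insert y0 (Finset.univ.image hξ.eigenvalues)) y0
    (Finset.mem_insert_self _ _) ?_ ?_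
  · rw [hGm]
    have : {i | y0 ≤ hξ.eigenvalues i} = Set.univ := by
      ext i
      simp [hy0 i]
    rw [this, Set.image_univ]
    exact e.span_eq
  · intro y
    by_cases hT : (Finset.univ.filter fun i => y ≤ hξ.eigenvalues i).Nonempty
    · right
      obtain ⟨i, hi, hmin⟩ := Finset.exists_min_image _ hξ.eigenvalues hT
      rw [Finset.mem_filter] at hi
      refine ⟨hξ.eigenvalues i, ?_, hi.2, ?_⟩
      · simp
      · rw [hGm, hGm]
        congr 2
        ext j
        simp only [Set.mem_ofPred_eq]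
        constructor
        · intro h
          exact hmin j (by simp [h])
        · intro h
          exact hi.2.trans h
    · left
      rw [hGm]
      have : {i | y ≤ hξ.eigenvalues i} = ∅ := by
        ext i
        rw [Finset.not_nonempty_iff_eq_empty, Finset.filter_eq_empty_iff] at hT
        simpa using hT (Finset.mem_univ i)
      rw [this, Set.image_empty, span_empty]

end Pool.Agent.Helper34.KP
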