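import Pool.Agent.Helper20.KP.StH

/-! Project KP, module HED: good coordinates. -/

set_option autoImplicit false

namespace Pool.Agent.Helper34.KP

open MeasureTheory Filter Pool.Agent.Helper52.KP Pool.Agent.Helper20.KP
open scoped Topology

private theorem hed_basis (m : ℕ) (S : Set (Fin m → ℂ)) (hS : volume S = 0) :
    ∃ e : Module.Basis (Fin m) ℂ (Fin m → ℂ), ∀ j, e j ∉ S := by
  have hsp : ⊤ ≤ Submodule.span ℂ Sᶜ := by
    by_contra hc
    set W := Submodule.span ℂ Sᶜ with hW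
    have hW' : W.restrictScalars ℝ ≠ ⊤ := by
      intro h
      apply hc
      intro x _
      have : x ∈ W.restrictScalars ℝ := by rw [h]; trivial
      exact this
    have h1 : volume ((W.restrictScalars ℝ : Submodule ℝ (Fin m → ℂ)) : Set (Fin m → ℂ)) = 0 :=
      Measure.addHaar_submodule volume _ hW'
    have h2 : (Set.univ : Set (Fin m → ℂ)) ⊆
        S ∪ ((W.restrictScalars ℝ : Submodule ℝ (Fin m → ℂ)) : Set (Fin m → ℂ)) := by
      intro x _
      by_cases hx : x ∈ S
      · exact Or.inl hx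
      · exact Or.inr (Submodule.subset_span hx)
    have h3 : volume (Set.univ : Set (Fin m → ℂ)) = 0 :=
      measure_mono_null h2 (measure_union_null hS h1)
    exact (isOpen_univ.measure_ne_zero volume Set.univ_nonempty) h3
  let e0 := Module.Basis.ofSpan hsp
  have he0 : ∀ i, e0 i ∈ Sᶜ := fun i => Module.Basis.ofSpan_subset hsp ⟨i, rfl⟩
  refine ⟨e0.reindex (e0.indexEquiv (Pi.basisFun ℂ (Fin m))), ?_⟩
  intro j
  rw [Module.Basis.reindex_apply]
  exact he0 _

/-- **HED.** -/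
theorem hHED (h1 : StHEX) (h2 : StHNI) : StHED := by
  classical
  intro D hD
  obtain ⟨L, hL1, z, hz, hL2⟩ := h1 D hD
  obtain ⟨b, hb1, hb2⟩ := hD.bdry
  have hm := hD.hm
  -- the image of the boundary
  have hS : volume (L '' (closure D.O \ D.O)) = 0 := by
    have hsub : L '' (closure D.O \ D.O) ⊆ ⋃ i, Set.range fun s => L (b i s) := by
      rintro _ ⟨x, hx, rfl⟩
      obtain ⟨i, s, hs⟩ := Set.mem_iUnion.1 (hb2 hx)
      exact Set.mem_iUnion.2 ⟨i, s, by simp only [hs]⟩
    refine measure_mono_null hsub (measure_iUnion_null fun i => ?_)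
    refine h2 (D.m - 2) D.m (by omega) _ ?_
    exact (LinearMap.toContinuousLinearMap L).differentiable.comp (hb1 i)
  obtain ⟨e, he⟩ := hed_basis D.m _ hS
  let A : (Fin D.m → ℂ) ≃ₗ[ℂ] (Fin D.m → ℂ) := e.equivFun
  have hAe : ∀ j, A (e j) = Pi.single j 1 := by
    intro j
    ext k
    rw [Module.Basis.equivFun_self, Pi.single_apply]
    simp only [eq_comm]
  let Y : D.LM := A.toLinearMap ∘ₗ L
  have hY : ∀ x, Y x = A (L x) := fun x => rfl
  have hYc : Continuous Y := (LinearMap.toContinuousLinearMap Y).continuous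
  have hcone : ∀ x ∈ closure D.O, ∀ c : ℂ, c ≠ 0 → c • x ∈ closure D.O := by
    intro x hx c hc
    exact map_mem_closure (continuous_const_smul c) hx (fun y hy => hD.cone y hy c hc)
  refine ⟨Y, ?_, ?_, ?_, ?_⟩
  · have hK : IsCompact (closure D.O ∩ Metric.sphere (0 : Fin D.N → ℂ) 1) :=
      (isCompact_sphere _ _).inter_left isClosed_closure
    have hex : ∃ a : ℝ, 0 < a ∧ ∀ x ∈ closure D.O ∩ Metric.sphere (0 : Fin D.N → ℂ) 1,
        a ≤ ‖Y x‖ := by
      rcases (closure D.O ∩ Metric.sphere (0 : Fin D.N → ℂ) 1).eq_empty_or_nonempty with h | h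
      · exact ⟨1, one_pos, fun x hx => by rw [h] at hx; exact absurd hx (by simp)⟩
      · obtain ⟨x0, hx0, hmin⟩ := hK.exists_isMinOn h hYc.norm.continuousOn
        refine ⟨‖Y x0‖, ?_, fun x hx => hmin hx⟩
        rw [norm_pos_iff]
        intro h0
        rw [hY, LinearEquiv.map_eq_zero_iff] at h0
        have h3 := hL1 x0 hx0.1 h0
        have h4 : ‖x0‖ = 1 := by simpa using hx0.2
        rw [h3, norm_zero] at h4
        exact zero_ne_one h4
    obtain ⟨a, ha, ha'⟩ := hex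
    refine ⟨a, ha, ?_⟩
    intro x hx
    by_cases hx0 : x = 0
    · rw [hx0]
      simp
    · have hn : 0 < ‖x‖ := norm_pos_iff.2 hx0
      have hc : ((‖x‖⁻¹ : ℝ) : ℂ) ≠ 0 := by
        exact_mod_cast (inv_pos.2 hn).ne'
      have hnc : ‖((‖x‖⁻¹ : ℝ) : ℂ)‖ = ‖x‖⁻¹ := by
        rw [Complex.norm_real, Real.norm_eq_abs, abs_of_pos (inv_pos.2 hn)]
      have h3 := ha' (((‖x‖⁻¹ : ℝ) : ℂ) • x) ⟨hcone x hx _ hc, by
        rw [mem_sphere_zero_iff_norm, norm_smul, hnc, inv_mul_cancel₀ hn.ne']⟩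
      rw [map_smul, norm_smul, hnc] at h3
      calc a * ‖x‖ ≤ (‖x‖⁻¹ * ‖Y x‖) * ‖x‖ := mul_le_mul_of_nonneg_right h3 hn.le
        _ = ‖Y x‖ := by field_simp
  · refine ⟨z, hz, ?_⟩
    intro ξ ξ' h
    exact hL2 (A.injective h)
  · intro j x hx hx' h
    rw [hY, ← hAe j] at h
    have h3 : L x = e j := A.injective h
    exact he j ⟨x, ⟨hx, hx'⟩, h3⟩
  · intro j
    let g : ℕ → (Fin ((D.m - 2) + 1) → ℂ) → (Fin D.m → ℂ) := fun i u =>
      Y (b i (fun k => u k.castSucc)) - u (Fin.last _) • (Pi.single j 1 : Fin D.m → ℂ)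
    have hg : ∀ i, Differentiable ℂ (g i) := by
      intro i
      have e1 : Differentiable ℂ (fun u : Fin ((D.m - 2) + 1) → ℂ =>
          (fun k : Fin (D.m - 2) => u k.castSucc)) := by
        rw [differentiable_pi]
        intro k
        fun_prop
      have e2 : Differentiable ℂ (fun u : Fin ((D.m - 2) + 1) → ℂ =>
          Y (b i (fun k => u k.castSucc))) :=
        (LinearMap.toContinuousLinearMap Y).differentiable.comp ((hb1 i).comp e1)
      have e3 : Differentiable ℂ (fun u : Fin ((D.m - 2) + 1) → ℂ =>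
          u (Fin.last _) • (Pi.single j 1 : Fin D.m → ℂ)) := by
        fun_prop
      exact e2.sub e3
    have hnull : volume (⋃ i, Set.range (g i)) = 0 :=
      measure_iUnion_null fun i => h2 _ D.m (by omega) (g i) (hg i)
    have hae : ∀ᵐ y : Fin D.m → ℂ, y ∉ ⋃ i, Set.range (g i) := measure_eq_zero_iff_ae_notMem.1 hnull
    filter_upwards [hae] with y hy t x hx hx' h
    apply hy
    obtain ⟨i, s, hs⟩ := Set.mem_iUnion.1 (hb2 ⟨hx, hx'⟩)
    refine Set.mem_iUnion.2 ⟨i, Fin.snoc s t, ?_⟩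
    have e1 : (fun k : Fin (D.m - 2) => (Fin.snoc s t : Fin ((D.m - 2) + 1) → ℂ) k.castSucc) = s := by
      funext k
      simp
    change Y (b i (fun k => (Fin.snoc s t : Fin ((D.m - 2) + 1) → ℂ) k.castSucc)) -
      (Fin.snoc s t : Fin ((D.m - 2) + 1) → ℂ) (Fin.last _) • (Pi.single j 1 : Fin D.m → ℂ) = y
    rw [e1, hs, h, Fin.snoc_last]
    abel

end Pool.Agent.Helper34.KP
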